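import Pool.Agent.BCS.Stmts

/-!
# Row EXI of squad BCS (MP_fb4904_gt): existence of approximate solutions of `w_z̄ = B conj w`
-/

set_option autoImplicit false

noncomputable section

open scoped ContDiff Topology ComplexConjugate
open Set MeasureTheory

namespace Pool.Agent.BCS.H2

theorem cont_dzb {w : ℂ → ℂ} (hw : ContDiff ℝ 1 w) : Continuous (dzb w) := by
  have h1 : Continuous (fderiv ℝ w) := hw.continuous_fderiv one_ne_zero
  have h2 : Continuous fun z => fderiv ℝ w z 1 := h1.clm_apply continuous_const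
  have h3 : Continuous fun z => fderiv ℝ w z Complex.I := h1.clm_apply continuous_const
  show Continuous fun z => (1 / 2 : ℂ) * (fderiv ℝ w z 1 + Complex.I * fderiv ℝ w z Complex.I)
  exact continuous_const.mul (h2.add (continuous_const.mul h3))

theorem intg {g : ℂ → ℝ} (hg : Continuous g) :
    IntegrableOn g (Metric.closedBall (0 : ℂ) 1) :=
  hg.continuousOn.integrableOn_compact (isCompact_closedBall 0 1)

theorem dI_mono {f g : ℂ → ℝ} (hf : Continuous f) (hg : Continuous g)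
    (h : ∀ z, ‖z‖ ≤ 1 → f z ≤ g z) : dI f ≤ dI g := by
  unfold dI
  refine setIntegral_mono_on (intg hf) (intg hg) measurableSet_closedBall ?_
  intro z hz
  exact h z (by simpa using hz)

theorem dI_add {f g : ℂ → ℝ} (hf : Continuous f) (hg : Continuous g) :
    dI (fun z => f z + g z) = dI f + dI g := by
  unfold dI
  exact integral_add (intg hf) (intg hg)

theorem dI_mul (c : ℝ) (f : ℂ → ℝ) : dI (fun z => c * f z) = c * dI f := by
  unfold dI
  exact integral_const_mul _ _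

theorem dI_nonneg {f : ℂ → ℝ} (h : ∀ z, 0 ≤ f z) : 0 ≤ dI f := by
  unfold dI
  exact integral_nonneg h

/-- the residual -/
def rs (H : ℂ → ℂ) (B : ℂ → ℝ) (v : ℂ → ℂ) (z : ℂ) : ℂ :=
  dzb (fun z => H z + v z) z - (B z : ℂ) * conj (H z + v z)

/-- the functional -/
def qf (H : ℂ → ℂ) (B : ℂ → ℝ) (v : ℂ → ℂ) : ℝ :=
  dI (fun z => Complex.normSq (rs H B v z) / B z)

theorem cont_rs {H : ℂ → ℂ} {B : ℂ → ℝ} {v : ℂ → ℂ} (hH : ContDiff ℝ 2 H) (hB : Continuous B)
    (hv : ContDiff ℝ ∞ v) : Continuous (rs H B v) := by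
  have h1 : ContDiff ℝ 1 (fun z => H z + v z) :=
    (hH.of_le (by norm_num)).add (hv.of_le (by exact_mod_cast le_top))
  have h2 := cont_dzb h1
  have h3 := h1.continuous
  unfold rs
  exact h2.sub ((Complex.continuous_ofReal.comp hB).mul (Complex.continuous_conj.comp h3))

theorem rs_sub {H : ℂ → ℂ} {B : ℂ → ℝ} {v u : ℂ → ℂ} (hH : ContDiff ℝ 2 H)
    (hv : ContDiff ℝ ∞ v) (hu : ContDiff ℝ ∞ u) (om : ℝ) (z : ℂ) :
    rs H B (fun z => v z - om • u z) z =
      (rs H B v z - (om : ℂ) * dzb u z) + ((om * B z : ℝ) : ℂ) * conj (u z) := by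
  have h1 : DifferentiableAt ℝ (fun z => H z + v z) z :=
    ((hH.differentiable (by norm_num)).add (hv.differentiable (by norm_num))) z
  have h2 : DifferentiableAt ℝ u z := hu.differentiable (by norm_num) z
  have e1 : (fun z => H z + (v z - om • u z)) = fun z => (H z + v z) - om • u z := by
    funext z
    rw [add_sub_assoc]
  have e2 : fderiv ℝ (fun z => (H z + v z) - om • u z) z =
      fderiv ℝ (fun z => H z + v z) z - om • fderiv ℝ u z := by
    have h3 : DifferentiableAt ℝ (fun z => om • u z) z := h2.const_smul om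
    rw [fderiv_fun_sub h1 h3, fderiv_fun_const_smul h2]
  unfold rs
  unfold dzb dx dy
  rw [e1, e2]
  have e3 : ∀ h : ℂ, (fderiv ℝ (fun z => H z + v z) z - om • fderiv ℝ u z) h =
      fderiv ℝ (fun z => H z + v z) z h - (om : ℂ) * fderiv ℝ u z h := fun h => rfl
  rw [e3, e3]
  simp only [Complex.real_smul, map_sub, map_add, map_mul, Complex.conj_ofReal]
  push_cast
  ring

theorem v0_sub {v u : ℂ → ℂ} (hv : V0 v) (hu : V0 u) (om : ℝ) :
    V0 (fun z => v z - om • u z) := by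
  have h0 : ContDiff ℝ ∞ (fun z => om • u z) := hu.1.const_smul om
  refine ⟨hv.1.sub h0, ?_⟩
  intro ζ hζ
  have h1 := hv.2 ζ hζ
  have h2 := hu.2 ζ hζ
  have e : ζ * (v (ζ ^ 2) - om • u (ζ ^ 2)) = ζ * v (ζ ^ 2) - om • (ζ * u (ζ ^ 2)) := by
    simp only [Complex.real_smul]
    ring
  rw [e, Complex.sub_re, h1, Complex.smul_re, h2]
  simp

/-- the pointwise inequality -/
theorem pointwise {R f u : ℂ} {B b β K δ om : ℝ} (hβ : 0 < β) (hβB : β ≤ B) (hBb : B ≤ b)
    (hR : ‖R‖ ≤ K) (he : ‖R - f‖ ≤ δ) (hδ1 : δ ≤ 1) (hom0 : 0 ≤ om) (hom1 : om ≤ 1) :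
    Complex.normSq ((R - (om : ℂ) * f) + ((om * B : ℝ) : ℂ) * conj u) / B ≤
      (1 - om) ^ 2 * (Complex.normSq R / B) + 2 * om * (1 - om) * (f * u).re +
        (δ * ((2 * K + 1) / β) + om * δ) + (om * δ + om ^ 2 * b) * Complex.normSq u := by
  have hB : 0 < B := hβ.trans_le hβB
  have hδ0 : 0 ≤ δ := (norm_nonneg _).trans he
  have hK0 : 0 ≤ K := (norm_nonneg _).trans hR
  have h1 : Complex.normSq ((R - (om : ℂ) * f) + ((om * B : ℝ) : ℂ) * conj u) =
      Complex.normSq (R - (om : ℂ) * f) + (om * B) ^ 2 * Complex.normSq u +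
        2 * (om * B) * ((R - (om : ℂ) * f) * u).re := by
    rw [Complex.normSq_add, Complex.normSq_mul, Complex.normSq_conj, Complex.normSq_ofReal, map_mul,
      Complex.conj_conj, Complex.conj_ofReal]
    have e : ((R - (om : ℂ) * f) * (((om * B : ℝ) : ℂ) * u)).re =
        (om * B) * ((R - (om : ℂ) * f) * u).re := by
      rw [show (R - (om : ℂ) * f) * (((om * B : ℝ) : ℂ) * u) =
        ((om * B : ℝ) : ℂ) * ((R - (om : ℂ) * f) * u) by ring, Complex.re_ofReal_mul]
    rw [e]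
    ring
  have h2 : ((R - (om : ℂ) * f) * u).re = (1 - om) * (f * u).re + ((R - f) * u).re := by
    have e : (R - (om : ℂ) * f) * u = ((1 - om : ℝ) : ℂ) * (f * u) + (R - f) * u := by
      push_cast
      ring
    rw [e, Complex.add_re, Complex.re_ofReal_mul]
  have h3 : ((R - f) * u).re ≤ δ * ((1 + Complex.normSq u) / 2) := by
    calc ((R - f) * u).re ≤ ‖(R - f) * u‖ := Complex.re_le_norm _
      _ = ‖R - f‖ * ‖u‖ := norm_mul _ _
      _ ≤ δ * ‖u‖ := mul_le_mul_of_nonneg_right he (norm_nonneg _)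
      _ ≤ δ * ((1 + Complex.normSq u) / 2) := by
          refine mul_le_mul_of_nonneg_left ?_ hδ0
          rw [Complex.normSq_eq_norm_sq]
          nlinarith [sq_nonneg (‖u‖ - 1)]
  have h4 : Complex.normSq (R - (om : ℂ) * f) ≤
      (1 - om) ^ 2 * Complex.normSq R + δ * (2 * K + 1) := by
    have e : R - (om : ℂ) * f = ((1 - om : ℝ) : ℂ) * R + (om : ℂ) * (R - f) := by
      push_cast
      ring
    have h5 : ‖R - (om : ℂ) * f‖ ≤ (1 - om) * ‖R‖ + om * δ := by
      rw [e]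
      refine (norm_add_le _ _).trans ?_
      rw [norm_mul, norm_mul, Complex.norm_real, Complex.norm_real, Real.norm_eq_abs,
        Real.norm_eq_abs, abs_of_nonneg (by linarith : 0 ≤ 1 - om), abs_of_nonneg hom0]
      have := mul_le_mul_of_nonneg_left he hom0
      linarith
    rw [Complex.normSq_eq_norm_sq, Complex.normSq_eq_norm_sq]
    have h6 : ‖R - (om : ℂ) * f‖ ^ 2 ≤ ((1 - om) * ‖R‖ + om * δ) ^ 2 :=
      pow_le_pow_left₀ (norm_nonneg _) h5 2
    refine h6.trans ?_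
    have e2 : ((1 - om) * ‖R‖ + om * δ) ^ 2 =
        (1 - om) ^ 2 * ‖R‖ ^ 2 + δ * (2 * (om * (1 - om) * ‖R‖) + om ^ 2 * δ) := by ring
    rw [e2]
    have h7 : om * (1 - om) * ‖R‖ ≤ K := by
      have h8 : om * (1 - om) ≤ 1 := by nlinarith
      have h9 : 0 ≤ om * (1 - om) := mul_nonneg hom0 (by linarith)
      calc om * (1 - om) * ‖R‖ ≤ 1 * K := mul_le_mul h8 hR (norm_nonneg _) zero_le_one
        _ = K := one_mul _
    have h8 : om ^ 2 * δ ≤ 1 := by
      have h9 : om ^ 2 ≤ 1 := pow_le_one₀ hom0 hom1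
      calc om ^ 2 * δ ≤ 1 * 1 := mul_le_mul h9 hδ1 hδ0 zero_le_one
        _ = 1 := one_mul _
    have h10 : δ * (2 * (om * (1 - om) * ‖R‖) + om ^ 2 * δ) ≤ δ * (2 * K + 1) :=
      mul_le_mul_of_nonneg_left (by linarith) hδ0
    linarith
  have hu0 : 0 ≤ Complex.normSq u := Complex.normSq_nonneg u
  rw [h1, h2]
  have e3 : (Complex.normSq (R - (om : ℂ) * f) + (om * B) ^ 2 * Complex.normSq u +
      2 * (om * B) * ((1 - om) * (f * u).re + ((R - f) * u).re)) / B =
      Complex.normSq (R - (om : ℂ) * f) / B + om ^ 2 * B * Complex.normSq u +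
        2 * om * (1 - om) * (f * u).re + 2 * om * ((R - f) * u).re := by
    field_simp
    ring
  rw [e3]
  have h11 : Complex.normSq (R - (om : ℂ) * f) / B ≤
      (1 - om) ^ 2 * (Complex.normSq R / B) + δ * ((2 * K + 1) / β) := by
    have h12 : Complex.normSq (R - (om : ℂ) * f) / B ≤
        ((1 - om) ^ 2 * Complex.normSq R + δ * (2 * K + 1)) / B :=
      div_le_div_of_nonneg_right h4 hB.le
    have h13 : δ * (2 * K + 1) / B ≤ δ * (2 * K + 1) / β :=
      div_le_div_of_nonneg_left (mul_nonneg hδ0 (by linarith)) hβ hβB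
    have e4 : ((1 - om) ^ 2 * Complex.normSq R + δ * (2 * K + 1)) / B =
        (1 - om) ^ 2 * (Complex.normSq R / B) + δ * (2 * K + 1) / B := by ring
    have e5 : δ * (2 * K + 1) / β = δ * ((2 * K + 1) / β) := by ring
    rw [e4] at h12
    rw [e5] at h13
    linarith
  have h14 : om ^ 2 * B * Complex.normSq u ≤ om ^ 2 * b * Complex.normSq u :=
    mul_le_mul_of_nonneg_right (mul_le_mul_of_nonneg_left hBb (sq_nonneg _)) hu0
  have h15 : 2 * om * ((R - f) * u).re ≤ 2 * om * (δ * ((1 + Complex.normSq u) / 2)) :=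
    mul_le_mul_of_nonneg_left h3 (by linarith)
  have e6 : 2 * om * (δ * ((1 + Complex.normSq u) / 2)) = om * δ + om * δ * Complex.normSq u := by
    ring
  rw [e6] at h15
  have e7 : (om * δ + om ^ 2 * b) * Complex.normSq u =
      om * δ * Complex.normSq u + om ^ 2 * b * Complex.normSq u := by ring
  rw [e7]
  linarith

/-- the step of the minimisation -/
theorem step (h1 : CoeStmt) (h2 : TzrStmt) (h3 : StwStmt) {H : ℂ → ℂ} {B : ℂ → ℝ}
    (hH : ContDiff ℝ 2 H) (hB : Continuous B) (hBp : ∀ z, 0 < B z) :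
    ∃ om : ℝ, 0 < om ∧ ∀ v, V0 v → ∀ η > 0, ∃ v', V0 v' ∧ qf H B v' ≤ (1 - om) * qf H B v + η := by
  have hne : (Metric.closedBall (0 : ℂ) 1).Nonempty := ⟨0, by simp⟩
  obtain ⟨zb, -, hzb⟩ := (isCompact_closedBall (0 : ℂ) 1).exists_isMaxOn hne hB.continuousOn
  obtain ⟨za, -, hza⟩ := (isCompact_closedBall (0 : ℂ) 1).exists_isMinOn hne hB.continuousOn
  obtain ⟨b, hb⟩ : ∃ b : ℝ, b = B zb := ⟨_, rfl⟩
  obtain ⟨β, hβ⟩ : ∃ β : ℝ, β = B za := ⟨_, rfl⟩
  have hBb : ∀ z : ℂ, ‖z‖ ≤ 1 → B z ≤ b := by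
    intro z hz
    rw [hb]
    exact hzb (by simpa using hz : z ∈ Metric.closedBall (0 : ℂ) 1)
  have hβB : ∀ z : ℂ, ‖z‖ ≤ 1 → β ≤ B z := by
    intro z hz
    rw [hβ]
    exact hza (by simpa using hz : z ∈ Metric.closedBall (0 : ℂ) 1)
  have hb0 : 0 < b := by rw [hb]; exact hBp _
  have hβ0 : 0 < β := by rw [hβ]; exact hBp _
  have hC : 0 < 1 + 6 * b ^ 2 := by positivity
  obtain ⟨om, hom⟩ : ∃ om : ℝ, om = 1 / (1 + 6 * b ^ 2) := ⟨_, rfl⟩
  have hom0 : 0 < om := by rw [hom]; positivity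
  have hom1 : om ≤ 1 := by
    rw [hom, div_le_one hC]
    nlinarith [sq_nonneg b]
  have home : (1 - om) ^ 2 + 6 * b ^ 2 * om ^ 2 = 1 - om := by
    rw [hom]
    field_simp
    ring
  refine ⟨om, hom0, ?_⟩
  intro v hv η hη
  have hRc := cont_rs hH hB hv.1
  obtain ⟨zk, -, hzk⟩ := (isCompact_closedBall (0 : ℂ) 1).exists_isMaxOn hne
    hRc.norm.continuousOn
  obtain ⟨K, hK⟩ : ∃ K : ℝ, K = ‖rs H B v zk‖ := ⟨_, rfl⟩
  have hRK : ∀ z : ℂ, ‖z‖ ≤ 1 → ‖rs H B v z‖ ≤ K := by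
    intro z hz
    rw [hK]
    exact hzk (by simpa using hz : z ∈ Metric.closedBall (0 : ℂ) 1)
  have hK0 : 0 ≤ K := by rw [hK]; exact norm_nonneg _
  obtain ⟨vol, hvol⟩ : ∃ vol : ℝ, vol = dI (fun _ => 1) := ⟨_, rfl⟩
  have hvol0 : 0 ≤ vol := by rw [hvol]; exact dI_nonneg fun _ => zero_le_one
  have hQ0 : 0 ≤ qf H B v :=
    dI_nonneg fun z => div_nonneg (Complex.normSq_nonneg _) (hBp z).le
  obtain ⟨Q, hQ⟩ : ∃ Q : ℝ, Q = qf H B v := ⟨_, rfl⟩
  rw [← hQ] at hQ0 ⊢
  obtain ⟨L, hL⟩ : ∃ L : ℝ, L = ((2 * K + 1) / β + 1) * vol +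
      6 * (b * Q + (2 * K + 1) * vol) + 6 * b * ((2 * K + 1) * vol) + 1 := ⟨_, rfl⟩
  have hL1 : 0 < L := by
    rw [hL]
    positivity
  obtain ⟨δ, hδ⟩ : ∃ δ : ℝ, δ = min 1 (η / L) := ⟨_, rfl⟩
  have hδ0 : 0 < δ := by
    rw [hδ]
    exact lt_min one_pos (div_pos hη hL1)
  have hδ1 : δ ≤ 1 := by rw [hδ]; exact min_le_left _ _
  have hδL : δ * L ≤ η := by
    have h4 : δ ≤ η / L := by rw [hδ]; exact min_le_right _ _
    rwa [le_div_iff₀ hL1] at h4
  obtain ⟨N, c, hNc⟩ := h3 (rs H B v) δ hRc hδ0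
  obtain ⟨u, hu, huf⟩ := h2 N c
  obtain ⟨hc1, hc2⟩ := h1 u hu
  have hfc : Continuous (dzb u) := cont_dzb (hu.1.of_le (by exact_mod_cast le_top))
  have huc : Continuous u := hu.1.continuous
  have he : ∀ z : ℂ, ‖z‖ ≤ 1 → ‖rs H B v z - dzb u z‖ ≤ δ := by
    intro z hz
    rw [huf z]
    exact hNc z hz
  refine ⟨fun z => v z - om • u z, v0_sub hv hu om, ?_⟩
  have hnu : Continuous fun z => Complex.normSq (u z) := Complex.continuous_normSq.comp huc
  have hnf : Continuous fun z => Complex.normSq (dzb u z) := Complex.continuous_normSq.comp hfc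
  have hnR : Continuous fun z => Complex.normSq (rs H B v z) / B z :=
    (Complex.continuous_normSq.comp hRc).div hB fun z => (hBp z).ne'
  have hre : Continuous fun z => (dzb u z * u z).re := Complex.continuous_re.comp (hfc.mul huc)
  have hv'c : ContDiff ℝ ∞ (fun z => v z - om • u z) := (v0_sub hv hu om).1
  have hn' : Continuous fun z => Complex.normSq (rs H B (fun z => v z - om • u z) z) / B z :=
    (Complex.continuous_normSq.comp (cont_rs hH hB hv'c)).div hB fun z => (hBp z).ne'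
  have hk : ∀ c : ℝ, Continuous fun _ : ℂ => c * (1 : ℝ) := fun c => continuous_const
  have hm : ∀ (c : ℝ) (g : ℂ → ℝ), Continuous g → Continuous fun z => c * g z :=
    fun c g hg => continuous_const.mul hg
  have ha : ∀ (f g : ℂ → ℝ), Continuous f → Continuous g → Continuous fun z => f z + g z :=
    fun f g hf hg => hf.add hg
  -- the bound for the integral of `|f|²`
  have hF : dI (fun z => Complex.normSq (dzb u z)) ≤ b * Q + δ * (2 * K + 1) * vol := by
    have e1 : b * Q + δ * (2 * K + 1) * vol =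
        dI (fun z => b * (Complex.normSq (rs H B v z) / B z) + (δ * (2 * K + 1)) * 1) := by
      rw [dI_add (hm b _ hnR) (hk _), dI_mul, dI_mul, ← hvol, hQ]
      rfl
    rw [e1]
    refine dI_mono hnf (ha _ _ (hm b _ hnR) (hk _)) ?_
    intro z hz
    have h5 : ‖dzb u z‖ ≤ ‖rs H B v z‖ + δ := by
      have e2 : dzb u z = rs H B v z - (rs H B v z - dzb u z) := by ring
      rw [e2]
      exact (norm_sub_le _ _).trans (by linarith [he z hz])
    have h6 : Complex.normSq (dzb u z) ≤ Complex.normSq (rs H B v z) + δ * (2 * K + 1) := by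
      rw [Complex.normSq_eq_norm_sq, Complex.normSq_eq_norm_sq]
      have h7 := pow_le_pow_left₀ (norm_nonneg _) h5 2
      have h8 : δ * ‖rs H B v z‖ ≤ δ * K := mul_le_mul_of_nonneg_left (hRK z hz) hδ0.le
      have h9 : δ * δ ≤ δ * 1 := mul_le_mul_of_nonneg_left hδ1 hδ0.le
      nlinarith
    have h7 : Complex.normSq (rs H B v z) ≤ b * (Complex.normSq (rs H B v z) / B z) := by
      rw [mul_div_assoc', le_div_iff₀ (hBp z), mul_comm b]
      exact mul_le_mul_of_nonneg_left (hBb z hz) (Complex.normSq_nonneg _)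
    show Complex.normSq (dzb u z) ≤
      b * (Complex.normSq (rs H B v z) / B z) + (δ * (2 * K + 1)) * 1
    linarith
  have hU : dI (fun z => Complex.normSq (u z)) ≤ 6 * (b * Q + δ * (2 * K + 1) * vol) := by
    linarith
  have hmain : qf H B (fun z => v z - om • u z) ≤
      (1 - om) ^ 2 * Q + 2 * om * (1 - om) * dI (fun z => (dzb u z * u z).re) +
        (δ * ((2 * K + 1) / β) + om * δ) * vol +
          (om * δ + om ^ 2 * b) * dI (fun z => Complex.normSq (u z)) := by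
    have e1 : (1 - om) ^ 2 * Q + 2 * om * (1 - om) * dI (fun z => (dzb u z * u z).re) +
        (δ * ((2 * K + 1) / β) + om * δ) * vol +
          (om * δ + om ^ 2 * b) * dI (fun z => Complex.normSq (u z)) =
        dI (fun z => ((1 - om) ^ 2 * (Complex.normSq (rs H B v z) / B z) +
          2 * om * (1 - om) * (dzb u z * u z).re + (δ * ((2 * K + 1) / β) + om * δ) * 1) +
            (om * δ + om ^ 2 * b) * Complex.normSq (u z)) := by
      rw [dI_add (ha _ _ (ha _ _ (hm _ _ hnR) (hm _ _ hre)) (hk _)) (hm _ _ hnu),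
        dI_add (ha _ _ (hm _ _ hnR) (hm _ _ hre)) (hk _),
        dI_add (hm _ _ hnR) (hm _ _ hre), dI_mul, dI_mul, dI_mul, dI_mul, ← hvol, hQ]
      rfl
    rw [e1]
    unfold qf
    refine dI_mono hn' (ha _ _ (ha _ _ (ha _ _ (hm _ _ hnR) (hm _ _ hre)) (hk _))
      (hm _ _ hnu)) ?_
    intro z hz
    have h5 := pointwise (R := rs H B v z) (f := dzb u z) (u := u z) (B := B z) (b := b) (β := β)
      (K := K) (δ := δ) (om := om) hβ0 (hβB z hz) (hBb z hz) (hRK z hz) (he z hz) hδ1 hom0.le hom1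
    rw [← rs_sub hH hv.1 hu.1 om z] at h5
    show Complex.normSq (rs H B (fun z => v z - om • u z) z) / B z ≤ _
    rw [mul_one]
    exact h5
  have h9 : 2 * om * (1 - om) * dI (fun z => (dzb u z * u z).re) ≤ 0 :=
    mul_nonpos_of_nonneg_of_nonpos (mul_nonneg (by linarith) (by linarith)) hc2
  have h10 : (om * δ + om ^ 2 * b) * dI (fun z => Complex.normSq (u z)) ≤
      (om * δ + om ^ 2 * b) * (6 * (b * Q + δ * (2 * K + 1) * vol)) :=
    mul_le_mul_of_nonneg_left hU (by positivity)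
  have hV : 0 ≤ (2 * K + 1) * vol := by positivity
  have h11 : om * δ ≤ δ * 1 := by
    rw [mul_comm om]
    exact mul_le_mul_of_nonneg_left hom1 hδ0.le
  have hom2 : om ^ 2 ≤ 1 := pow_le_one₀ hom0.le hom1
  -- collect
  have e2 : (om * δ + om ^ 2 * b) * (6 * (b * Q + δ * (2 * K + 1) * vol)) =
      6 * b ^ 2 * om ^ 2 * Q + (om * δ) * (6 * (b * Q + δ * ((2 * K + 1) * vol))) +
        δ * (om ^ 2 * (6 * b * ((2 * K + 1) * vol))) := by ring
  rw [e2] at h10
  have h12 : (om * δ) * (6 * (b * Q + δ * ((2 * K + 1) * vol))) ≤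
      δ * 1 * (6 * (b * Q + 1 * ((2 * K + 1) * vol))) := by
    have h13 : δ * ((2 * K + 1) * vol) ≤ 1 * ((2 * K + 1) * vol) :=
      mul_le_mul_of_nonneg_right hδ1 hV
    have h14 : 0 ≤ b * Q := mul_nonneg hb0.le hQ0
    have h15 : 0 ≤ δ * ((2 * K + 1) * vol) := mul_nonneg hδ0.le hV
    refine mul_le_mul h11 (by linarith) (by linarith) (by linarith)
  have h16 : δ * (om ^ 2 * (6 * b * ((2 * K + 1) * vol))) ≤
      δ * (1 * (6 * b * ((2 * K + 1) * vol))) := by
    refine mul_le_mul_of_nonneg_left (mul_le_mul_of_nonneg_right hom2 ?_) hδ0.le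
    exact mul_nonneg (by linarith) hV
  have h17 : (δ * ((2 * K + 1) / β) + om * δ) * vol ≤ (δ * ((2 * K + 1) / β) + δ * 1) * vol :=
    mul_le_mul_of_nonneg_right (by linarith) hvol0
  have e3 : δ * L = (δ * ((2 * K + 1) / β) + δ * 1) * vol +
      δ * 1 * (6 * (b * Q + 1 * ((2 * K + 1) * vol))) +
        δ * (1 * (6 * b * ((2 * K + 1) * vol))) + δ := by
    rw [hL]
    ring
  have e4 : (1 - om) * Q = (1 - om) ^ 2 * Q + 6 * b ^ 2 * om ^ 2 * Q := by
    linear_combination (-Q) * home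
  linarith

/-- **EXI** -/
theorem exi (h1 : CoeStmt) (h2 : TzrStmt) (h3 : StwStmt) : ExiStmt := by
  intro H B ε hH hB hBp hε
  obtain ⟨om, hom0, hstep⟩ := step h1 h2 h3 hH hB hBp
  obtain ⟨S, hS⟩ : ∃ S : Set ℝ, S = {q | ∃ v, V0 v ∧ q = qf H B v} := ⟨_, rfl⟩
  have hbdd : BddBelow S := by
    refine ⟨0, ?_⟩
    rintro q hq
    rw [hS] at hq
    obtain ⟨v, -, rfl⟩ := hq
    exact dI_nonneg fun z => div_nonneg (Complex.normSq_nonneg _) (hBp z).le
  have hV0 : V0 (fun _ => (0 : ℂ)) := ⟨contDiff_const, fun ζ _ => by simp⟩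
  have hSne : S.Nonempty := by
    rw [hS]
    exact ⟨_, _, hV0, rfl⟩
  have hI : sInf S ≤ (1 - om) * sInf S ∨ 1 - om ≤ 0 := by
    by_cases hom1 : 1 - om ≤ 0
    · exact Or.inr hom1
    left
    push Not at hom1
    have h4 : sInf S / (1 - om) ≤ sInf S := by
      refine le_csInf hSne ?_
      rintro q hq
      rw [hS] at hq
      obtain ⟨v, hv, rfl⟩ := hq
      rw [div_le_iff₀ hom1]
      refine le_of_forall_pos_le_add ?_
      intro η hη
      obtain ⟨v', hv', h5⟩ := hstep v hv η hη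
      have h6 : sInf S ≤ qf H B v' := by
        refine csInf_le hbdd ?_
        rw [hS]
        exact ⟨v', hv', rfl⟩
      rw [mul_comm]
      exact h6.trans h5
    rwa [div_le_iff₀ hom1, mul_comm] at h4
  rcases hI with hI | hI
  · have hI0 : sInf S ≤ 0 := by nlinarith
    obtain ⟨q, hq, hqε⟩ := exists_lt_of_csInf_lt hSne (hI0.trans_lt hε)
    rw [hS] at hq
    obtain ⟨v, hv, rfl⟩ := hq
    exact ⟨v, hv, hqε.le⟩
  · obtain ⟨v', hv', h5⟩ := hstep _ hV0 ε hε
    refine ⟨v', hv', ?_⟩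
    have h6 : 0 ≤ qf H B (fun _ => (0 : ℂ)) :=
      dI_nonneg fun z => div_nonneg (Complex.normSq_nonneg _) (hBp z).le
    have h7 : (1 - om) * qf H B (fun _ => (0 : ℂ)) ≤ 0 := mul_nonpos_of_nonpos_of_nonneg hI h6
    exact h5.trans (by linarith)

end Pool.Agent.BCS.H2
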